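import Pool.Agent.H76.MO.StmtC

/-! `COM`: the composition lemma for replaced structures. -/

set_option autoImplicit false

open Set Pool.Agent.TK Pool.Agent.H71.VK

namespace Pool.Agent.MO

namespace COM

variable {C ι : Type} {c0 : C} {b : Rk} {M : St (C × W)} {B : ι → Set ℕ}
  {z : ι → List ℕ} {R : ι → St (C × W)}

lemma uniq (hA : RA c0 b M B z R) {i j : ι} {x : ℕ} (hi : x ∈ B i) (hj : x ∈ B j) :
    i = j := by
  by_contra h
  exact Set.disjoint_left.1 (hA.disj i j h) hi hj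

/-- the partial isomorphism on one block -/
lemma blk (hPIB : T_PIB C) (hA : RA c0 b M B z R) {Δ : Set ι} {p : List (ℕ × ℕ)}
    (hP : Ps M B z R Δ Rk.zero p) {i : ι} (hi : i ∈ Δ) :
    (∀ q ∈ p, q.1 ∈ B i → (R i).2 [q.1] = M.2 [q.2]) ∧
    (∀ q ∈ p, q.1 ∈ B i → tp (bn (R i)) (z i) q.1 = tp (bn M) (z i) q.2) ∧
    (∀ q ∈ p, q.1 ∈ B i → ∀ q' ∈ p, q'.1 ∈ B i → (q.1 = q'.1 ↔ q.2 = q'.2)) ∧
    (∀ q ∈ p, q.1 ∈ B i → ∀ q' ∈ p, q'.1 ∈ B i → bn (R i) q.1 q'.1 = bn M q.2 q'.2) := by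
  obtain ⟨h1, h2, h3⟩ := (hPIB c0 (R i) M _ (hA.vaR i) hA.val).1 (hP.2.2 i hi)
  refine ⟨?_, ?_, ?_, ?_⟩
  · intro q hq hb
    exact h2 q (List.mem_append_right _ (List.mem_filter.2 ⟨hq, by simpa using hb⟩))
  · intro q hq hb
    unfold tp
    refine List.map_congr_left fun s hs => ?_
    have hs' : (s, s) ∈ dg (z i) := List.mem_map.2 ⟨s, hs, rfl⟩
    have e1 := h3 q (List.mem_append_right _ (List.mem_filter.2 ⟨hq, by simpa using hb⟩))
      (s, s) (List.mem_append_left _ hs')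
    have e2 := h3 (s, s) (List.mem_append_left _ hs')
      q (List.mem_append_right _ (List.mem_filter.2 ⟨hq, by simpa using hb⟩))
    exact Prod.ext e1 e2
  · intro q hq hb q' hq' hb'
    exact h1 q (List.mem_append_right _ (List.mem_filter.2 ⟨hq, by simpa using hb⟩))
      q' (List.mem_append_right _ (List.mem_filter.2 ⟨hq', by simpa using hb'⟩))
  · intro q hq hb q' hq' hb'
    exact h3 q (List.mem_append_right _ (List.mem_filter.2 ⟨hq, by simpa using hb⟩))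
      q' (List.mem_append_right _ (List.mem_filter.2 ⟨hq', by simpa using hb'⟩))

/-- a pair whose first point lies in a block of `T'` is diagonal -/
lemma dia (hA : RA c0 b M B z R) {T T' : Set ι} {r : Rk} {p : List (ℕ × ℕ)}
    (hP : Ps M B z R (T \ T') r p) {q : ℕ × ℕ} (hq : q ∈ p) {i : ι} (hi : i ∈ T')
    (hb : q.1 ∈ B i) : q.1 = q.2 := by
  refine hP.1 q hq fun j hj hjb => ?_
  rw [uniq hA hjb hb] at hj
  exact hj.2 hi

/-- a pair whose second point lies in a block of `T'` is diagonal -/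
lemma dia' (hA : RA c0 b M B z R) {T T' : Set ι} {r : Rk} {p : List (ℕ × ℕ)}
    (hP : Ps M B z R (T \ T') r p) {q : ℕ × ℕ} (hq : q ∈ p) {i : ι} (hi : i ∈ T')
    (hb : q.2 ∈ B i) : q.1 = q.2 := by
  refine hP.1 q hq fun j hj hjb => ?_
  have h1 := (hP.2.1 q hq j hj).1 hjb
  rw [uniq hA h1 hb] at hj
  exact hj.2 hi

/-- the representatives of a pair -/
lemma rep (hPIB : T_PIB C) (hRPB : T_RPB C) (hA : RA c0 b M B z R) {T T' : Set ι}
    (hT : T' ⊆ T) {p : List (ℕ × ℕ)} (hP : Ps M B z R (T \ T') Rk.zero p) {q : ℕ × ℕ}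
    (hq : q ∈ p) :
    ((∀ i ∈ T, q.1 ∉ B i) ∧ rh M B z R T q.1 = q.1 ∧ rh M B z R T' q.2 = q.1) ∨
    ∃ i ∈ T, q.1 ∈ B i ∧ rh M B z R T q.1 ∈ B i ∧ rh M B z R T' q.2 ∈ B i ∧
      tp (bn M) (z i) (rh M B z R T q.1) = tp (bn M) (z i) (rh M B z R T' q.2) := by
  obtain ⟨-, a2, a3, -⟩ := hRPB ι c0 b M B z R hA T
  obtain ⟨-, b2, b3, -⟩ := hRPB ι c0 b M B z R hA T'
  by_cases hx : ∃ i ∈ T, q.1 ∈ B i
  · obtain ⟨i, hi, hb⟩ := hx
    right
    refine ⟨i, hi, hb, (a3 i hi q.1 hb).1, ?_⟩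
    by_cases hi' : i ∈ T'
    · have he := dia hA hP hq hi' hb
      rw [← he]
      exact ⟨(b3 i hi' q.1 hb).1, (a3 i hi q.1 hb).2.trans (b3 i hi' q.1 hb).2.symm⟩
    · have h2 : q.2 ∈ B i := (hP.2.1 q hq i ⟨hi, hi'⟩).1 hb
      have h3 : rh M B z R T' q.2 = q.2 := by
        refine b2 q.2 fun j hj hjb => ?_
        rw [uniq hA hjb h2] at hj
        exact hi' hj
      rw [h3]
      exact ⟨h2, (a3 i hi q.1 hb).2.trans
        ((blk hPIB hA hP (⟨hi, hi'⟩ : i ∈ T \ T')).2.1 q hq hb)⟩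
  · push Not at hx
    left
    have he : q.1 = q.2 := hP.1 q hq fun i hi => hx i hi.1
    refine ⟨hx, a2 q.1 hx, ?_⟩
    rw [← he]
    exact b2 q.1 fun i hi => hx i (hT hi)

lemma zero (hPIB : T_PIB C) (hRPB : T_RPB C) (hA : RA c0 b M B z R) {T T' : Set ι}
    (hT : T' ⊆ T) {p : List (ℕ × ℕ)} (hP : Ps M B z R (T \ T') Rk.zero p) :
    PI (rp M B z R T) (rp M B z R T') p := by
  obtain ⟨a1, a2, a3, a4, a5, a6, a7, -⟩ := hRPB ι c0 b M B z R hA T
  obtain ⟨b1, b2, b3, b4, b5, b6, b7, -⟩ := hRPB ι c0 b M B z R hA T'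
  -- a point in a block of `T` outside `T'` is in no block of `T'`
  have hout : ∀ i, i ∉ T' → ∀ x ∈ B i, ∀ j ∈ T', x ∉ B j := by
    intro i hi x hx j hj hjb
    rw [uniq hA hjb hx] at hj
    exact hi hj
  rw [hPIB c0 _ _ p a1 b1]
  refine ⟨?_, ?_, ?_⟩
  · -- the pattern
    intro q hq q' hq'
    by_cases h1 : ∃ i ∈ T \ T', q.1 ∈ B i
    · obtain ⟨i, hi, hb⟩ := h1
      by_cases h2 : q'.1 ∈ B i
      · exact (blk hPIB hA hP hi).2.2.1 q hq hb q' hq' h2
      · have h3 : q.2 ∈ B i := (hP.2.1 q hq i hi).1 hb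
        have h4 : q'.2 ∉ B i := fun h => h2 ((hP.2.1 q' hq' i hi).2 h)
        exact ⟨fun h => absurd (h ▸ hb) h2, fun h => absurd (h ▸ h3) h4⟩
    · push Not at h1
      have he : q.1 = q.2 := hP.1 q hq h1
      by_cases h2 : ∃ i ∈ T \ T', q'.1 ∈ B i
      · obtain ⟨i, hi, hb⟩ := h2
        have h3 : q'.2 ∈ B i := (hP.2.1 q' hq' i hi).1 hb
        have h4 := h1 i hi
        refine ⟨fun h => absurd (h ▸ hb) h4, fun h => ?_⟩
        rw [← h, ← he] at h3
        exact absurd h3 h4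
      · push Not at h2
        have he' : q'.1 = q'.2 := hP.1 q' hq' h2
        rw [← he, ← he']
  · -- the points
    intro q hq
    by_cases h1 : ∃ i ∈ T \ T', q.1 ∈ B i
    · obtain ⟨i, hi, hb⟩ := h1
      have h3 : q.2 ∈ B i := (hP.2.1 q hq i hi).1 hb
      rw [a5 i hi.1 q.1 hb, b4 q.2 (hout i hi.2 q.2 h3)]
      exact (blk hPIB hA hP hi).1 q hq hb
    · push Not at h1
      have he : q.1 = q.2 := hP.1 q hq h1
      rw [← he]
      by_cases h2 : ∃ i ∈ T', q.1 ∈ B i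
      · obtain ⟨i, hi, hb⟩ := h2
        rw [a5 i (hT hi) q.1 hb, b5 i hi q.1 hb]
      · push Not at h2
        rw [b4 q.1 h2, a4 q.1]
        intro i hi hb
        by_cases hi' : i ∈ T'
        · exact h2 i hi' hb
        · exact h1 i ⟨hi, hi'⟩ hb
  · -- the pairs
    intro q hq q' hq'
    by_cases h1 : ∃ i ∈ T, q.1 ∈ B i ∧ q'.1 ∈ B i
    · obtain ⟨i, hi, hb, hb'⟩ := h1
      rw [a6 i hi q.1 hb q'.1 hb']
      by_cases hi' : i ∈ T'
      · rw [← dia hA hP hq hi' hb, ← dia hA hP hq' hi' hb', b6 i hi' q.1 hb q'.1 hb']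
      · have h3 : q.2 ∈ B i := (hP.2.1 q hq i ⟨hi, hi'⟩).1 hb
        have h3' : q'.2 ∈ B i := (hP.2.1 q' hq' i ⟨hi, hi'⟩).1 hb'
        rw [(blk hPIB hA hP (⟨hi, hi'⟩ : i ∈ T \ T')).2.2.2 q hq hb q' hq' hb',
          b7 q.2 q'.2 (fun j hj hjb => absurd hjb (hout i hi' q.2 h3 j hj)),
          b2 q.2 (hout i hi' q.2 h3), b2 q'.2 (hout i hi' q'.2 h3')]
    · push Not at h1
      rw [a7 q.1 q'.1 h1, b7 q.2 q'.2 (by
        intro i hi hb hb'
        rw [← dia' hA hP hq hi hb] at hb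
        rw [← dia' hA hP hq' hi hb'] at hb'
        exact h1 i (hT hi) hb hb')]
      -- moving one representative
      have mv : ∀ w ∈ p, ∀ y, (∀ i ∈ T, w.1 ∈ B i → y ∉ B i) →
          ee (bn M) (rh M B z R T w.1) y = ee (bn M) (rh M B z R T' w.2) y := by
        intro w hw y hy
        rcases rep hPIB hRPB hA hT hP hw with ⟨-, e1, e2⟩ | ⟨i, hi, e1, e2, e3, e4⟩
        · rw [e1, e2]
        · exact hA.ctl i _ e2 _ e3 e4 y (hy i hi e1)
      have s1 := mv q hq (rh M B z R T q'.1) (by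
        intro i hi hb hv
        rcases rep hPIB hRPB hA hT hP hq' with ⟨e0, e1, -⟩ | ⟨j, hj, e1, e2, -, -⟩
        · rw [e1] at hv
          exact e0 i hi hv
        · rw [uniq hA e2 hv] at e1
          exact h1 i hi hb e1)
      have s2 := mv q' hq' (rh M B z R T' q.2) (by
        intro i hi hb hv
        rcases rep hPIB hRPB hA hT hP hq with ⟨e0, -, e1⟩ | ⟨j, hj, e1, -, e2, -⟩
        · rw [e1] at hv
          exact e0 i hi hv
        · rw [uniq hA e2 hv] at e1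
          exact h1 i hi e1 hb)
      have s3 := congrArg Prod.fst s1
      have s4 := congrArg Prod.snd s2
      exact s3.trans s4

end COM

theorem pf_COM {C : Type} (hPIB : T_PIB C) (hRPB : T_RPB C) (hPSE : T_PSE C) : T_COM C := by
  intro ι c0 b M B z R hA T T' hT r
  obtain ⟨-, e2, -, -, e5⟩ := hPSE ι c0 b M B z R hA (T \ T')
  induction r with
  | zero => intro p hp; exact COM.zero hPIB hRPB hA hT hp
  | sup f ih =>
    intro p hp m
    refine ⟨ih m p (e2 (f m) (Rk.sup f) p (RLe.sup f m) hp), ?_, ?_⟩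
    · intro a _
      obtain ⟨a', h⟩ := (e5 f p hp m).1 a
      exact ⟨a', mem_univ _, ih m _ h⟩
    · intro a' _
      obtain ⟨a, h⟩ := (e5 f p hp m).2 a'
      exact ⟨a, mem_univ _, ih m _ h⟩

end Pool.Agent.MO
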