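import Pool.Agent.H76.MO.StmtE

/-! The sequence of new blocks. -/

set_option autoImplicit false

open Set Pool.Agent.TK Pool.Agent.H71.VK

namespace Pool.Agent.MO.DTXm

variable {c : ℕ → ℕ → W} {Sm : Pr → Prop} {D B : List Bool → Pr}

/-- position of two lists -/
lemma list_pos : ∀ a b : List Bool, a ≠ b → (∃ i u, a = b ++ i :: u) ∨ (∃ i u, b = a ++ i :: u) ∨
    ∃ r i j u v, i ≠ j ∧ a = r ++ i :: u ∧ b = r ++ j :: v
  | [], [], h => absurd rfl h
  | [], j :: b, _ => Or.inr (Or.inl ⟨j, b, rfl⟩)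
  | i :: a, [], _ => Or.inl ⟨i, a, rfl⟩
  | i :: a, j :: b, h => by
    by_cases hij : i = j
    · subst hij
      have hab : a ≠ b := fun e => h (by rw [e])
      rcases list_pos a b hab with ⟨k, u, e⟩ | ⟨k, u, e⟩ | ⟨r, k, l, u, v, hkl, e1, e2⟩
      · exact Or.inl ⟨k, u, by rw [e]; rfl⟩
      · exact Or.inr (Or.inl ⟨k, u, by rw [e]; rfl⟩)
      · exact Or.inr (Or.inr ⟨i :: r, k, l, u, v, hkl, by rw [e1]; rfl, by rw [e2]; rfl⟩)
    · exact Or.inr (Or.inr ⟨[], i, j, a, b, hij, rfl, rfl⟩)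

lemma rev_pos (s t : List Bool) (h : s ≠ t) : (∃ i u, s = u ++ i :: t) ∨
    (∃ i u, t = u ++ i :: s) ∨ ∃ r i j u v, i ≠ j ∧ s = u ++ i :: r ∧ t = v ++ j :: r := by
  have h' : s.reverse ≠ t.reverse := fun e => h (List.reverse_injective e)
  have key : ∀ (a b : List Bool) (i : Bool) (u : List Bool), a.reverse = b.reverse ++ i :: u →
      a = u.reverse ++ i :: b := by
    intro a b i u e
    have e' := congrArg List.reverse e
    simpa using e'
  rcases list_pos _ _ h' with ⟨k, u, e⟩ | ⟨k, u, e⟩ | ⟨r, k, l, u, v, hkl, e1, e2⟩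
  · exact Or.inl ⟨k, u.reverse, key _ _ _ _ e⟩
  · exact Or.inr (Or.inl ⟨k, u.reverse, key _ _ _ _ e⟩)
  · refine Or.inr (Or.inr ⟨r.reverse, k, l, u.reverse, v.reverse, hkl, key _ _ _ _ ?_,
      key _ _ _ _ ?_⟩)
    · rw [List.reverse_reverse, e1]
    · rw [List.reverse_reverse, e2]

lemma sub_cons (h : Sch c Sm D B) (i : Bool) (s : List Bool) :
    st c (D (i :: s)) ⊆ st c (D s) := by
  obtain ⟨σ, hσ⟩ := h.suf i s
  have hv := h.vD (i :: s)
  rw [hσ] at hv ⊢
  exact st_app hv

lemma sub_app (h : Sch c Sm D B) : ∀ (u s : List Bool), st c (D (u ++ s)) ⊆ st c (D s)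
  | [], _ => subset_rfl
  | i :: u, s => (sub_cons h i (u ++ s)).trans (sub_app h u s)

lemma subB (h : Sch c Sm D B) (s : List Bool) : st c (B s) ⊆ st c (D s) := by
  obtain ⟨σ, hσ⟩ := h.suB s
  have hv := h.vB s
  rw [hσ] at hv ⊢
  exact st_app hv

lemma dj' (h : Sch c Sm D B) {i j : Bool} (hij : i ≠ j) (s : List Bool) :
    Disjoint (st c (D (i :: s))) (st c (D (j :: s))) := by
  have h1 := h.dj s
  cases i <;> cases j
  · exact absurd rfl hij
  · exact h1.symm
  · exact h1
  · exact absurd rfl hij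

/-- the blocks are pairwise disjoint -/
lemma blocks_disj (h : Sch c Sm D B) {s t : List Bool} (hst : s ≠ t) :
    Disjoint (st c (B s)) (st c (B t)) := by
  rcases rev_pos s t hst with ⟨i, u, e⟩ | ⟨i, u, e⟩ | ⟨r, i, j, u, v, hij, e1, e2⟩
  · have h1 : st c (B s) ⊆ st c (D (i :: t)) := by
      rw [e]
      exact (subB h _).trans (sub_app h u (i :: t))
    exact (Set.disjoint_of_subset_right h1 (h.djB i t)).symm
  · have h1 : st c (B t) ⊆ st c (D (i :: s)) := by
      rw [e]
      exact (subB h _).trans (sub_app h u (i :: s))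
    exact Set.disjoint_of_subset_right h1 (h.djB i s)
  · have h1 : st c (B s) ⊆ st c (D (i :: r)) := by
      rw [e1]
      exact (subB h _).trans (sub_app h u (i :: r))
    have h2 : st c (B t) ⊆ st c (D (j :: r)) := by
      rw [e2]
      exact (subB h _).trans (sub_app h v (j :: r))
    exact Set.disjoint_of_subset_left h1 (Set.disjoint_of_subset_right h2 (dj' h hij r))

lemma tt_countable {C : Type} (M : St (C × W)) (B : List Bool → Set ℕ) (z : List Bool → List ℕ)
    (R : List Bool → St (C × W)) (i : ℕ) : (TT M B z R i).Countable := by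
  have hfin : {s : List Bool | Encodable.encode s < i}.Finite :=
    (Set.finite_lt_nat i).preimage (Encodable.encode_injective.injOn)
  have h1 : {σ : Set (List Bool) | ∀ s ∈ σ, Encodable.encode s < i}.Countable := by
    have : {σ : Set (List Bool) | ∀ s ∈ σ, Encodable.encode s < i} =
        𝒫 {s : List Bool | Encodable.encode s < i} := rfl
    rw [this]
    exact hfin.finite_subsets.countable
  refine (h1.biUnion (t := fun σ _ => Set.range (fun π : Pr =>
    ((rp M B z R σ, zl π, st (bn (rp M B z R σ)) π) : Tr C)))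
    (fun σ _ => Set.countable_range _)).mono ?_
  rintro t ⟨σ, hσ, π, -, rfl⟩
  exact Set.mem_biUnion hσ ⟨π, rfl⟩

lemma tt_congr {C : Type} (hRP0 : T_RP0 C) (M : St (C × W)) (B : List Bool → Set ℕ)
    (z : List Bool → List ℕ) (R R' : List Bool → St (C × W)) (i : ℕ)
    (hB : ∀ s t, s ≠ t → Disjoint (B s) (B t))
    (hR : ∀ s : List Bool, Encodable.encode s < i → R s = R' s) :
    TT M B z R i = TT M B z R' i := by
  have h1 : ∀ σ : Set (List Bool), (∀ s ∈ σ, Encodable.encode s < i) →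
      rp M B z R σ = rp M B z R' σ := fun σ hσ =>
    (hRP0 (List Bool) M B z R R').2 σ (fun s hs => hR s (hσ s hs))
      (fun s _ t _ hst => hB s t hst)
  ext t
  constructor
  · rintro ⟨σ, hσ, π, hπ, rfl⟩
    refine ⟨σ, hσ, π, ?_, ?_⟩
    · rwa [← h1 σ hσ]
    · rw [h1 σ hσ]
  · rintro ⟨σ, hσ, π, hπ, rfl⟩
    refine ⟨σ, hσ, π, ?_, ?_⟩
    · rwa [h1 σ hσ]
    · rw [h1 σ hσ]

end Pool.Agent.MO.DTXm

namespace Pool.Agent.MO

open Pool.Agent.MO.DTXm in
/-- DTX: the sequence of new blocks. -/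
theorem pf_DTX {C : Type} [MeasurableSpace C] (hEXN : T_EXN C) (hRP0 : T_RP0 C) : E_DTX C := by
  classical
  intro c0 b X hX M hM Sm D B hS hsm
  obtain ⟨Bs, hBs⟩ : ∃ Bs : List Bool → Set ℕ, Bs = fun s => st (bn M) (B s) := ⟨_, rfl⟩
  obtain ⟨z, hz⟩ : ∃ z : List Bool → List ℕ, z = fun s => zl (B s) := ⟨_, rfl⟩
  have hdis : ∀ s t, s ≠ t → Disjoint (Bs s) (Bs t) := by
    intro s t hst
    rw [hBs]
    exact blocks_disj hS hst
  -- the next block
  have hnext : ∀ (g : List Bool → St (C × W)) (s : List Bool), ∃ R' : St (C × W),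
      BV c0 R' ∧ FB b M (z s) (Bs s) R' (z s) (Bs s) ∧
        ¬ InO (TT M Bs z g (Encodable.encode s)) R' (z s) (Bs s) := by
    intro g s
    rw [hz, hBs]
    exact hEXN c0 b M (zl (B s)) (st (bn M) (B s)) (hX.val M hM) hX.base
      (zl_disj (hS.vB s)) (fun h => hS.big s (hsm _ (hS.vB s) h)) _ (tt_countable _ _ _ _ _)
  choose nxt n1 n2 n3 using hnext
  -- the approximations
  obtain ⟨f, hf0, hfs⟩ : ∃ f : ℕ → List Bool → St (C × W), (∀ t, f 0 t = M) ∧
      ∀ k t, f (k + 1) t = if Encodable.encode t = k then nxt (f k) t else f k t :=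
    ⟨fun k => Nat.rec (fun _ => M)
      (fun k g t => if Encodable.encode t = k then nxt g t else g t) k, fun _ => rfl,
      fun _ _ => rfl⟩
  obtain ⟨R, hR⟩ : ∃ R : List Bool → St (C × W), ∀ t, R t = f (Encodable.encode t + 1) t :=
    ⟨_, fun _ => rfl⟩
  have hfR : ∀ k (t : List Bool), Encodable.encode t < k → f k t = R t := by
    intro k
    induction k with
    | zero => intro t ht; omega
    | succ k ih =>
      intro t ht
      by_cases he : Encodable.encode t = k
      · rw [hR, he]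
      · rw [hfs, if_neg he]
        exact ih t (by omega)
  have hRn : ∀ t, R t = nxt (f (Encodable.encode t)) t := by
    intro t
    rw [hR, hfs, if_pos rfl]
  refine ⟨R, hS, ?_, ?_⟩
  · refine ⟨hX.val M hM, fun s => ?_, fun s t hst => blocks_disj hS hst, fun s t a ha => ?_,
      fun s x hx x' hx' ht y hy => ctl (hS.vB s) hx hx' ht hy, fun s => ?_, hX.base⟩
    · rw [hRn]
      exact n1 _ _
    · exact hS.pB s t a (zl_sub_dl _ ha)
    · have := n2 (f (Encodable.encode s)) s
      rw [← hRn, hz, hBs] at this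
      exact this
  · intro s
    have h1 := n3 (f (Encodable.encode s)) s
    rw [← hRn] at h1
    have h2 : TT M Bs z R (Encodable.encode s) = TT M Bs z (f (Encodable.encode s))
        (Encodable.encode s) :=
      tt_congr hRP0 M Bs z R _ _ hdis fun t ht => (hfR _ t ht).symm
    rw [← h2, hz, hBs] at h1
    exact h1

end Pool.Agent.MO
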