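import Pool.Agent.H76.MO.StmtC

set_option autoImplicit false

open Set Pool.Agent.TK Pool.Agent.H71.VK

namespace Pool.Agent.MO

theorem pf_MES {C : Type} [MeasurableSpace C] : T_MES C := by
  classical
  intro ι _ c0 b M B z R hRA φ hφ
  have huniq : ∀ (i j : ι) (x : ℕ), x ∈ B i → x ∈ B j → i = j := by
    intro i j x hi hj
    by_contra h
    exact Set.disjoint_left.1 (hRA.disj i j h) hi hj
  -- dependence on the blocks which meet the list
  have hrh : ∀ (T T' : Set ι) (x : ℕ), (∀ i, x ∈ B i → (i ∈ T ↔ i ∈ T')) →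
      rh M B z R T x = rh M B z R T' x := by
    intro T T' x h
    unfold rh
    by_cases h1 : ∃ i ∈ T, x ∈ B i
    · have h2 : ∃ i ∈ T', x ∈ B i := by
        obtain ⟨i, hi, hxi⟩ := h1
        exact ⟨i, (h i hxi).1 hi, hxi⟩
      have e : h1.choose = h2.choose := huniq _ _ x h1.choose_spec.2 h2.choose_spec.2
      rw [dif_pos h1, dif_pos h2]
      simp only [e]
    · have h2 : ¬ ∃ i ∈ T', x ∈ B i := by
        rintro ⟨i, hi, hxi⟩
        exact h1 ⟨i, (h i hxi).2 hi, hxi⟩
      rw [dif_neg h1, dif_neg h2]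
  have hrp : ∀ (T T' : Set ι) (l : List ℕ), (∀ x ∈ l, ∀ i, x ∈ B i → (i ∈ T ↔ i ∈ T')) →
      (rp M B z R T).2 l = (rp M B z R T').2 l := by
    intro T T' l h
    have e0 : l.map (rh M B z R T) = l.map (rh M B z R T') :=
      List.map_congr_left fun x hx => hrh T T' x (h x hx)
    unfold rp
    simp only
    by_cases h1 : ∃ i ∈ T, l ≠ [] ∧ ∀ x ∈ l, x ∈ B i
    · obtain ⟨a, ha⟩ := List.exists_mem_of_ne_nil l h1.choose_spec.2.1
      have h2 : ∃ i ∈ T', l ≠ [] ∧ ∀ x ∈ l, x ∈ B i := by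
        obtain ⟨i, hi, hl, hxi⟩ := h1
        exact ⟨i, (h a ha i (hxi a ha)).1 hi, hl, hxi⟩
      have e : h1.choose = h2.choose :=
        huniq _ _ a (h1.choose_spec.2.2 a ha) (h2.choose_spec.2.2 a ha)
      rw [dif_pos h1, dif_pos h2, e]
    · have h2 : ¬ ∃ i ∈ T', l ≠ [] ∧ ∀ x ∈ l, x ∈ B i := by
        rintro ⟨i, hi, hl, hxi⟩
        obtain ⟨a, ha⟩ := List.exists_mem_of_ne_nil l hl
        exact h1 ⟨i, (h a ha i (hxi a ha)).2 hi, hl, hxi⟩
      rw [dif_neg h1, dif_neg h2, e0]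
  refine Measurable.prodMk measurable_const (measurable_pi_lambda _ fun l => ?_)
  let I0 : Set ι := {i | ∃ x ∈ l, x ∈ B i}
  have hI0 : I0.Finite := by
    have h1 : I0 = ⋃ x ∈ {x | x ∈ l}, {i | x ∈ B i} := by
      ext i
      simp [I0]
    rw [h1]
    refine Set.Finite.biUnion (List.finite_toSet l) fun x _ => ?_
    exact Set.Subsingleton.finite fun i hi j hj => huniq i j x hi hj
  have : Finite I0 := hI0
  let g : (ℕ → Bool) → (I0 → Bool) := fun y i => decide ((i : ι) ∈ φ y)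
  let G : (I0 → Bool) → C × W := fun s => (rp M B z R {i | ∃ h : i ∈ I0, s ⟨i, h⟩ = true}).2 l
  have hg : Measurable g := by
    refine measurable_pi_lambda _ fun i => ?_
    apply measurable_to_bool
    have : (fun y => decide ((i : ι) ∈ φ y)) ⁻¹' {true} = {y | (i : ι) ∈ φ y} := by
      ext y
      simp
    rw [this]
    exact hφ i
  have hG : Measurable G := measurable_of_countable G
  have he : (fun y => (rp M B z R (φ y)).2 l) = G ∘ g := by
    funext y
    change (rp M B z R (φ y)).2 l = (rp M B z R {i | ∃ h : i ∈ I0, g y ⟨i, h⟩ = true}).2 l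
    apply hrp
    intro x hx i hxi
    have hi : i ∈ I0 := ⟨x, hx, hxi⟩
    constructor
    · intro h
      exact ⟨hi, by simpa [g] using h⟩
    · rintro ⟨_, h⟩
      simpa [g] using h
  change Measurable (fun y => (rp M B z R (φ y)).2 l)
  rw [he]
  exact hG.comp hg

end Pool.Agent.MO
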