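import Pool.Agent.H76.MO.StmtC

/-! MP_5607ba_lc, board `cw_modules`, row MEX: replacement stays in the class. -/

set_option autoImplicit false

open Set Pool.Agent.TK Pool.Agent.H71.VK

namespace Pool.Agent.MO

theorem pf_MEX {C : Type} [MeasurableSpace C] (hCOM : T_COM C) (hPSE : T_PSE C)
    (hRP0 : T_RP0 C) : T_MEX C := by
  intro ι c0 b X hH M hM B z R hRA T
  have h1 : Ps M B z R (T \ ∅) b (dg []) :=
    (hPSE ι c0 b M B z R hRA (T \ ∅)).1 [] (by simp)
  have h2 := hCOM ι c0 b M B z R hRA T ∅ (empty_subset _) b (dg []) h1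
  rw [(hRP0 ι M B z R R).1] at h2
  exact hH.cl M hM _ (bf_symm h2)

end Pool.Agent.MO
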