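import Pool.Agent.H76.MO.StmtC

/-! `PIB`: partial isomorphisms of binary structures. -/

set_option autoImplicit false

open Set Pool.Agent.TK Pool.Agent.H71.VK

namespace Pool.Agent.MO

theorem pf_PIB {C : Type} : T_PIB C := by
  intro c0 M M' p hM hM'
  obtain ⟨m1, m2, m3, m4, m5⟩ := hM
  obtain ⟨n1, n2, n3, n4, n5⟩ := hM'
  constructor
  · rintro ⟨h1, -, h3⟩
    refine ⟨h1, ?_, ?_⟩
    · intro q hq
      have := h3 [q] (by intro z hz; rw [List.mem_singleton] at hz; rw [hz]; exact hq)
      exact this
    · intro q hq q' hq'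
      have := h3 [q, q'] (by
        intro z hz
        rcases List.mem_cons.1 hz with rfl | hz
        · exact hq
        · rw [List.mem_singleton] at hz; rw [hz]; exact hq')
      exact congrArg Prod.snd this
  · rintro ⟨h1, h2, h3⟩
    refine ⟨h1, ?_, ?_⟩
    · intro z hz w hw
      rw [m1, n1, decide_eq_decide, not_iff_not]
      exact h1 z hz w hw
    · intro q hq
      match q, hq with
      | [], _ =>
        change M.2 [] = M'.2 []
        rw [m2, n2]
      | [a], hq => exact h2 a (hq a List.mem_cons_self)
      | [a, b], hq =>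
        have ha := hq a List.mem_cons_self
        have hb := hq b (List.mem_cons_of_mem _ List.mem_cons_self)
        change M.2 [a.1, b.1] = M'.2 [a.2, b.2]
        refine Prod.ext ?_ (h3 a ha b hb)
        rw [m4 a.1 b.1, n4 a.2 b.2]
      | a :: b :: c :: l, _ =>
        rw [m5 _ (by simp), n5 _ (by simp)]

end Pool.Agent.MO
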