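import Pool.Agent.H76.MO.StmtC

/-! Module PSE of the board cw_modules: extension of positions. -/

set_option autoImplicit false

open Set Pool.Agent.TK Pool.Agent.H71.VK

namespace Pool.Agent.MO

namespace PSE

variable {C : Type} {ι : Type}

open Classical in
/-- filters of sublists -/
private lemma filt_sub {A : Set ℕ} {k : List ℕ} {p p' : List (ℕ × ℕ)} (h : ∀ q ∈ p', q ∈ p) :
    ∀ q ∈ dg k ++ p'.filter (fun q => decide (q.1 ∈ A)),
      q ∈ dg k ++ p.filter (fun q => decide (q.1 ∈ A)) := by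
  intro q hq
  rw [List.mem_append, List.mem_filter] at hq ⊢
  rcases hq with hq | hq
  · exact Or.inl hq
  · exact Or.inr ⟨h q hq.1, hq.2⟩

open Classical in
/-- a pair outside the block does not change the filter -/
private lemma filt_out {A : Set ℕ} {k : List ℕ} {p : List (ℕ × ℕ)} {a a' : ℕ} (h : a ∉ A) :
    dg k ++ ((a, a') :: p).filter (fun q => decide (q.1 ∈ A)) =
      dg k ++ p.filter (fun q => decide (q.1 ∈ A)) := by
  rw [List.filter_cons_of_neg]
  simpa using h

open Classical in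
/-- a pair inside the block -/
private lemma filt_in {A : Set ℕ} {k : List ℕ} {p : List (ℕ × ℕ)} {a a' : ℕ} (h : a ∈ A) :
    ∀ q ∈ dg k ++ ((a, a') :: p).filter (fun q => decide (q.1 ∈ A)),
      q ∈ (a, a') :: (dg k ++ p.filter (fun q => decide (q.1 ∈ A))) := by
  intro q hq
  rw [List.filter_cons_of_pos (by simpa using h)] at hq
  simp only [List.mem_append, List.mem_cons] at hq ⊢
  tauto

variable {c0 : C} {b : Rk} {M : St (C × W)} {B : ι → Set ℕ} {z : ι → List ℕ}
  {R : ι → St (C × W)} {Δ : Set ι}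

private lemma rank_le {r s : Rk} {p : List (ℕ × ℕ)} (h : RLe (C × W) r s)
    (hp : Ps M B z R Δ s p) : Ps M B z R Δ r p :=
  ⟨hp.1, hp.2.1, fun i hi => h _ _ _ _ _ (hp.2.2 i hi)⟩

private lemma sub {r : Rk} {p p' : List (ℕ × ℕ)} (h : ∀ q ∈ p', q ∈ p)
    (hp : Ps M B z R Δ r p) : Ps M B z R Δ r p' :=
  ⟨fun q hq => hp.1 q (h q hq), fun q hq => hp.2.1 q (h q hq),
    fun i hi => bf_mono (hp.2.2 i hi) (filt_sub h)⟩

private lemma outs {r : Rk} {p : List (ℕ × ℕ)} {x : ℕ} (hp : Ps M B z R Δ r p)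
    (hx : ∀ i ∈ Δ, x ∉ B i) : Ps M B z R Δ r ((x, x) :: p) := by
  refine ⟨?_, ?_, ?_⟩
  · intro q hq h
    rcases List.mem_cons.1 hq with rfl | hq
    · rfl
    · exact hp.1 q hq h
  · intro q hq i hi
    rcases List.mem_cons.1 hq with rfl | hq
    · exact Iff.rfl
    · exact hp.2.1 q hq i hi
  · intro i hi
    rw [filt_out (hx i hi)]
    exact hp.2.2 i hi

private lemma ins (hd : ∀ i j, i ≠ j → Disjoint (B i) (B j)) {r : Rk} {p : List (ℕ × ℕ)}
    {a a' : ℕ} {i : ι} (hi : i ∈ Δ) (hp : Ps M B z R Δ r p) (ha : a ∈ B i) (ha' : a' ∈ B i)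
    (h : bf (R i) M (B i) (B i) r ((a, a') :: (dg (z i) ++
      p.filter (fun q => @decide (q.1 ∈ B i) (Classical.propDecidable _))))) :
    Ps M B z R Δ r ((a, a') :: p) := by
  classical
  refine ⟨?_, ?_, ?_⟩
  · intro q hq h
    rcases List.mem_cons.1 hq with rfl | hq
    · exact absurd ha (h i hi)
    · exact hp.1 q hq h
  · intro q hq j hj
    rcases List.mem_cons.1 hq with rfl | hq
    · by_cases hij : j = i
      · subst hij
        exact ⟨fun _ => ha', fun _ => ha⟩
      · have hd' := hd j i hij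
        exact ⟨fun h' => absurd ha (Set.disjoint_left.1 hd' h'),
          fun h' => absurd ha' (Set.disjoint_left.1 hd' h')⟩
    · exact hp.2.1 q hq j hj
  · intro j hj
    by_cases hij : j = i
    · subst hij
      exact bf_mono h (filt_in ha)
    · have hd' := hd i j (Ne.symm hij)
      rw [filt_out (Set.disjoint_left.1 hd' ha)]
      exact hp.2.2 j hj

end PSE

open PSE in
theorem pf_PSE {C : Type} : T_PSE C := by
  classical
  intro ι c0 b M B z R hRA Δ
  refine ⟨?_, fun r s p h hp => rank_le h hp, fun r p p' h hp => sub h hp,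
    fun r p x hp hx => outs hp hx, ?_⟩
  · intro k hk
    refine ⟨?_, ?_, ?_⟩
    · intro q hq _
      rw [mem_dg] at hq
      exact hq.1
    · intro q hq i _
      rw [mem_dg] at hq
      rw [hq.1]
    · intro i hi
      have h := bf_symm (hRA.fb i).2
      rw [swap_zip, ← dg_eq_zip] at h
      refine bf_mono h ?_
      intro q hq
      rw [List.mem_append, List.mem_filter] at hq
      rcases hq with hq | ⟨hq, hq'⟩
      · exact hq
      · exfalso
        rw [mem_dg] at hq
        exact hk q.1 hq.2 i hi (of_decide_eq_true hq')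
  · intro f p hp m
    have hp' : Ps M B z R Δ (f m) p := rank_le (RLe.sup f m) hp
    constructor
    · intro a
      by_cases h : ∃ i ∈ Δ, a ∈ B i
      · obtain ⟨i, hi, ha⟩ := h
        obtain ⟨a', ha', h⟩ := ((hp.2.2 i hi) m).2.1 a ha
        exact ⟨a', ins hRA.disj hi hp' ha ha' h⟩
      · push Not at h
        exact ⟨a, outs hp' h⟩
    · intro a'
      by_cases h : ∃ i ∈ Δ, a' ∈ B i
      · obtain ⟨i, hi, ha'⟩ := h
        obtain ⟨a, ha, h⟩ := ((hp.2.2 i hi) m).2.2 a' ha'
        exact ⟨a, ins hRA.disj hi hp' ha ha' h⟩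
      · push Not at h
        exact ⟨a', outs hp' h⟩

end Pool.Agent.MO
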