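import Pool.Agent.H76.MO.StmtC

set_option autoImplicit false

open Set Pool.Agent.TK Pool.Agent.H71.VK

namespace Pool.Agent.MO

theorem pf_RP0 {C : Type} : T_RP0 C := by
  classical
  intro ι M B z R R'
  refine ⟨?_, fun T hR _ => ?_⟩
  · have h1 : rh M B z R ∅ = id := by
      funext x
      unfold rh
      rw [dif_neg]
      · rfl
      · rintro ⟨i, hi, -⟩
        exact hi
    refine Prod.ext rfl ?_
    funext l
    unfold rp
    simp only
    rw [dif_neg, h1, List.map_id]
    rintro ⟨i, hi, -⟩
    exact hi
  · have h1 : rh M B z R T = rh M B z R' T := by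
      funext x
      unfold rh
      by_cases h : ∃ i ∈ T, x ∈ B i
      · rw [dif_pos h, dif_pos h]
        have e : R h.choose = R' h.choose := hR _ h.choose_spec.1
        simp only [e]
      · rw [dif_neg h, dif_neg h]
    refine Prod.ext rfl ?_
    funext l
    unfold rp
    simp only
    by_cases h : ∃ i ∈ T, l ≠ [] ∧ ∀ x ∈ l, x ∈ B i
    · rw [dif_pos h, dif_pos h, hR _ h.choose_spec.1]
    · rw [dif_neg h, dif_neg h, h1]

end Pool.Agent.MO
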