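import Pool.Agent.H76.MO.StmtC

/-! Row RPB: facts on the replaced structure. -/

set_option autoImplicit false

open Set Pool.Agent.TK Pool.Agent.H71.VK

namespace Pool.Agent.MO

namespace RPB

variable {C : Type} {ι : Type} {c0 : C} {b : Rk} {M : St (C × W)} {B : ι → Set ℕ}
  {z : ι → List ℕ} {R : ι → St (C × W)}

lemma uniq (ra : RA c0 b M B z R) {i j : ι} {x : ℕ} (hi : x ∈ B i) (hj : x ∈ B j) : i = j := by
  by_contra h
  exact Set.disjoint_left.1 (ra.disj i j h) hi hj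

lemma mem_zip_self {l : List ℕ} {s : ℕ} (hs : s ∈ l) : (s, s) ∈ l.zip l := by
  induction l with
  | nil => simp at hs
  | cons a l ih =>
    rw [List.zip_cons_cons]
    rcases List.mem_cons.1 hs with h | h
    · rw [h]
      exact List.mem_cons_self
    · exact List.mem_cons_of_mem _ (ih h)

lemma ee_PI {M M' : St (C × W)} {p : List (ℕ × ℕ)} (hp : PI M M' p) {x x' y y' : ℕ}
    (hx : (x, x') ∈ p) (hy : (y, y') ∈ p) : ee (bn M) x y = ee (bn M') x' y' := by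
  have h1 := hp.2.2 [(x, x'), (y, y')] (by
    intro z hz
    simp only [List.mem_cons, List.not_mem_nil, or_false] at hz
    rcases hz with rfl | rfl
    exacts [hx, hy])
  have h2 := hp.2.2 [(y, y'), (x, x')] (by
    intro z hz
    simp only [List.mem_cons, List.not_mem_nil, or_false] at hz
    rcases hz with rfl | rfl
    exacts [hy, hx])
  simp only [List.map_cons, List.map_nil] at h1 h2
  unfold ee bn
  rw [h1, h2]

lemma ex (ra : RA c0 b M B z R) (i : ι) {x : ℕ} (hx : x ∈ B i) :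
    ∃ y ∈ B i, tp (bn M) (z i) y = tp (bn (R i)) (z i) x := by
  obtain ⟨-, h1⟩ := ra.fb i
  have h2 := ra.base _ _ _ _ _ h1
  obtain ⟨-, -, h3⟩ := h2 0
  obtain ⟨y, hy, h4⟩ := h3 x hx
  refine ⟨y, hy, ?_⟩
  have h5 := bf_PI h4
  unfold tp
  exact List.map_congr_left fun s hs => ee_PI h5 List.mem_cons_self
    (List.mem_cons_of_mem _ (mem_zip_self hs))

lemma rh_out {T : Set ι} {x : ℕ} (hx : ∀ i ∈ T, x ∉ B i) : rh M B z R T x = x := by
  have h : ¬ ∃ i ∈ T, x ∈ B i := by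
    rintro ⟨i, hi, h⟩
    exact hx i hi h
  unfold rh
  rw [dif_neg h]

lemma rh_in (ra : RA c0 b M B z R) {T : Set ι} {i : ι} (hi : i ∈ T) {x : ℕ} (hx : x ∈ B i) :
    rh M B z R T x ∈ B i ∧ tp (bn M) (z i) (rh M B z R T x) = tp (bn (R i)) (z i) x := by
  have h : ∃ i ∈ T, x ∈ B i := ⟨i, hi, hx⟩
  have hc : h.choose = i := uniq ra h.choose_spec.2 hx
  have h' : ∃ y ∈ B h.choose, tp (bn M) (z h.choose) y = tp (bn (R h.choose)) (z h.choose) x :=
    ex ra h.choose h.choose_spec.2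
  have e : rh M B z R T x = h'.choose := by
    unfold rh
    rw [dif_pos h, dif_pos h']
  have h2 := h'.choose_spec
  rw [← e, hc] at h2
  exact h2

lemma rp_in (ra : RA c0 b M B z R) {T : Set ι} {i : ι} (hi : i ∈ T) {l : List ℕ} (hl : l ≠ [])
    (hx : ∀ x ∈ l, x ∈ B i) : (rp M B z R T).2 l = (R i).2 l := by
  have h : ∃ i ∈ T, l ≠ [] ∧ ∀ x ∈ l, x ∈ B i := ⟨i, hi, hl, hx⟩
  have hc : h.choose = i := by
    obtain ⟨a, ha⟩ := List.exists_mem_of_ne_nil l hl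
    exact uniq ra (h.choose_spec.2.2 a ha) (hx a ha)
  unfold rp
  simp only
  rw [dif_pos h, hc]

lemma rp_out {T : Set ι} {l : List ℕ} (h : ¬ ∃ i ∈ T, l ≠ [] ∧ ∀ x ∈ l, x ∈ B i) :
    (rp M B z R T).2 l = M.2 (l.map (rh M B z R T)) := by
  unfold rp
  simp only
  rw [dif_neg h]

lemma bn_out {T : Set ι} {x y : ℕ} (h : ∀ i ∈ T, x ∈ B i → y ∉ B i) :
    bn (rp M B z R T) x y = bn M (rh M B z R T x) (rh M B z R T y) := by
  unfold bn
  rw [rp_out]
  · rfl
  · rintro ⟨i, hi, -, h1⟩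
    exact h i hi (h1 x (by simp)) (h1 y (by simp))

lemma bn_in (ra : RA c0 b M B z R) {T : Set ι} {i : ι} (hi : i ∈ T) {x y : ℕ} (hx : x ∈ B i)
    (hy : y ∈ B i) : bn (rp M B z R T) x y = bn (R i) x y := by
  unfold bn
  rw [rp_in ra hi (by simp)]
  intro a ha
  simp only [List.mem_cons, List.not_mem_nil, or_false] at ha
  rcases ha with rfl | rfl
  exacts [hx, hy]

lemma un_in (ra : RA c0 b M B z R) {T : Set ι} {i : ι} (hi : i ∈ T) {x : ℕ} (hx : x ∈ B i) :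
    (rp M B z R T).2 [x] = (R i).2 [x] := by
  rw [rp_in ra hi (by simp)]
  intro a ha
  simp only [List.mem_cons, List.not_mem_nil, or_false] at ha
  rw [ha]
  exact hx

lemma un_out {T : Set ι} {x : ℕ} (hx : ∀ i ∈ T, x ∉ B i) : (rp M B z R T).2 [x] = M.2 [x] := by
  rw [rp_out]
  · rw [List.map_cons, List.map_nil, rh_out hx]
  · rintro ⟨i, hi, -, h1⟩
    exact hx i hi (h1 x (by simp))

lemma bv (ra : RA c0 b M B z R) (T : Set ι) : BV c0 (rp M B z R T) := by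
  obtain ⟨m1, m2, m3, m4, m5⟩ := ra.val
  refine ⟨m1, ?_, ?_, ?_, ?_⟩
  · rw [rp_out]
    · exact m2
    · rintro ⟨i, hi, h, -⟩
      exact h rfl
  · intro x
    by_cases h : ∃ i ∈ T, [x] ≠ [] ∧ ∀ y ∈ [x], y ∈ B i
    · obtain ⟨i, hi, h1, h2⟩ := h
      rw [rp_in ra hi h1 h2]
      exact (ra.vaR i).2.2.1 x
    · rw [rp_out h]
      exact m3 _
  · intro x y
    by_cases h : ∃ i ∈ T, [x, y] ≠ [] ∧ ∀ w ∈ [x, y], w ∈ B i
    · obtain ⟨i, hi, h1, h2⟩ := h
      rw [rp_in ra hi h1 h2]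
      exact (ra.vaR i).2.2.2.1 x y
    · rw [rp_out h]
      exact m4 _ _
  · intro l hl
    by_cases h : ∃ i ∈ T, l ≠ [] ∧ ∀ w ∈ l, w ∈ B i
    · obtain ⟨i, hi, h1, h2⟩ := h
      rw [rp_in ra hi h1 h2]
      exact (ra.vaR i).2.2.2.2 l hl
    · rw [rp_out h]
      exact m5 _ (by rw [List.length_map]; exact hl)

end RPB

theorem pf_RPB {C : Type} : T_RPB C := by
  intro ι c0 b M B z R ra T
  refine ⟨RPB.bv ra T, fun x hx => RPB.rh_out hx, fun i hi x hx => RPB.rh_in ra hi hx,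
    fun x hx => RPB.un_out hx, fun i hi x hx => RPB.un_in ra hi hx,
    fun i hi x hx y hy => RPB.bn_in ra hi hx hy, fun x y h => RPB.bn_out h, ?_⟩
  intro i hi x hx
  have h1 := (RPB.rh_in ra hi hx).2
  unfold tp at h1 ⊢
  rw [List.map_inj_left] at h1
  refine List.map_congr_left fun s hs => ?_
  have hs' : ∀ j ∈ T, s ∉ B j := fun j _ => ra.avo i j s hs
  rw [← h1 s hs]
  unfold ee
  rw [RPB.bn_out (fun j hj _ => hs' j hj), RPB.bn_out (fun j hj h => absurd h (hs' j hj)),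
    RPB.rh_out hs']

end Pool.Agent.MO
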