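import Pool.Agent.H16.MO.END
import Pool.Agent.H16.MO.DTX
import Pool.Agent.H16.MO.OMI
import Pool.Agent.H16.MO.PIB
import Pool.Agent.H16.MO.ISB
import Pool.Agent.H16.MO.RPB
import Pool.Agent.H16.MO.PSE
import Pool.Agent.H16.MO.COM
import Pool.Agent.H16.MO.RP0
import Pool.Agent.H16.MO.MEX
import Pool.Agent.H16.MO.MES
import Pool.Agent.H71.MO.MEM
import Pool.Agent.H71.MO.FBP
import Pool.Agent.H71.MO.IOT
import Pool.Agent.H71.MO.BLK
import Pool.Agent.H71.MO.INV
import Pool.Agent.H71.MO.TYP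
import Pool.Agent.H71.MO.DCD
import Pool.Agent.H71.MO.EXN
import Pool.Agent.H71.MO.CTB
import Pool.Agent.H71.CW.Top
import Pool.Agent.H92.CW.TP1
import Pool.Agent.H52.CW.TP2
import Pool.Agent.H52.CW.TP3
import Pool.Agent.H52.CW.TP4
import Pool.Agent.H52.CW.TP6
import Pool.Agent.H20.CW.TP5

/-! The decoding, without hypotheses. -/

set_option autoImplicit false

open Set Topology Pool.Agent.TK Pool.Agent.H71.VK

namespace Pool.Agent.MO

theorem all_TOP : Pool.Agent.CW.TOP := Pool.Agent.CW.top_of Pool.Agent.CW.pf_TP1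
  Pool.Agent.CW.pf_TP3 Pool.Agent.CW.pf_TP4 (Pool.Agent.CW.pf_TP6 Pool.Agent.CW.pf_TP2
  Pool.Agent.CW.pf_TP5)

theorem all_COM {C : Type} : T_COM C := pf_COM pf_PIB pf_RPB pf_PSE

theorem all_MEX {C : Type} [MeasurableSpace C] : T_MEX C := pf_MEX all_COM pf_PSE pf_RP0

theorem all_FBP {C : Type} : T_FBP C := pf_FBP pf_MEM

theorem all_CTB {C : Type} : T_CTB C := pf_CTB all_FBP

theorem all_BLK {C : Type} : T_BLK C := pf_BLK pf_RPB pf_PIB

theorem all_INV {C : Type} : T_INV C := pf_INV pf_MEM all_COM pf_PSE pf_RP0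

theorem all_DCD {C : Type} : T_DCD C := pf_DCD pf_MEM all_COM pf_PSE pf_RP0

theorem all_TYP {C : Type} : T_TYP C := pf_TYP pf_MEM all_COM pf_PSE

theorem all_DF {C : Type} : E_DF C := pf_DF all_INV all_TYP all_DCD all_BLK

theorem all_END {C : Type} [MeasurableSpace C] : E_END C :=
  pf_END all_DF (pf_DTX pf_EXN pf_RP0) (pf_OMI pf_IOT) all_TOP all_MEX pf_MES

end Pool.Agent.MO
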