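import Pool.Agent.H16.MO.WEX

/-! HMD: the space of points at infinity is homeomorphic to the space of branches. -/

set_option autoImplicit false

open Set Topology Pool.Agent.TK Pool.Agent.H71.VK

namespace Pool.Agent.MO

lemma isOpen_pre : ∀ (m : ℕ) (s : List Bool), IsOpen {p : ℕ → Bool | pre p m = s}
  | 0, s => by
    by_cases hs : [] = s
    · have h1 : {p : ℕ → Bool | pre p 0 = s} = univ := eq_univ_of_forall fun _ => hs
      rw [h1]
      exact isOpen_univ
    · have h1 : {p : ℕ → Bool | pre p 0 = s} = ∅ := eq_empty_of_forall_notMem fun _ h => hs h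
      rw [h1]
      exact isOpen_empty
  | m + 1, [] => by
    have h1 : {p : ℕ → Bool | pre p (m + 1) = []} = ∅ :=
      eq_empty_of_forall_notMem fun p h => List.cons_ne_nil _ _ h
    rw [h1]
    exact isOpen_empty
  | m + 1, i :: s => by
    have h1 : {p : ℕ → Bool | pre p (m + 1) = i :: s} =
        (fun p : ℕ → Bool => p m) ⁻¹' {i} ∩ {p : ℕ → Bool | pre p m = s} := by
      ext p
      change p m :: pre p m = i :: s ↔ _
      rw [List.cons.injEq]
      rfl
    rw [h1]
    exact ((isOpen_discrete _).preimage (continuous_apply m)).inter (isOpen_pre m s)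

section
variable {C : Type} {N : St (C × W)} {D B : List Bool → Pr} {T : Set (List Bool)}
  {Θ : ℕ → Set (Tr C)}

lemma DF.sameLen (h : DF N D B T Θ) {s t : List Bool} (hl : s.length = t.length) (hst : s ≠ t) :
    Disjoint (st (bn N) (D s)) (st (bn N) (D t)) := by
  rcases tail_cases s t with ⟨u, hu⟩ | ⟨u, i, hu⟩ | ⟨r, u, v, i, hu, hv⟩
  · exfalso
    rw [hu, List.length_append] at hl
    have h1 : u = [] := List.eq_nil_of_length_eq_zero (by omega)
    rw [h1] at hu
    exact hst hu.symm
  · exfalso
    rw [hu, List.length_append, List.length_cons] at hl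
    omega
  · subst hu hv
    have h1 : Disjoint (st (bn N) (D (i :: r))) (st (bn N) (D ((!i) :: r))) := by
      cases i with
      | true => exact h.dj r
      | false => exact (h.dj r).symm
    exact h1.mono (h.dSub u _) (h.dSub v _)

lemma DF.wpD (h : DF N D B T Θ) {p : ℕ → Bool} {s : List Bool} :
    wp N D p (D s) = true ↔ pre p s.length = s := by
  rw [wp_iff]
  constructor
  · rintro ⟨-, m, hm⟩
    by_contra hne
    exact h.not_disj (m' := s.length) hm (h.sameLen (pre_length p _) hne)
  · intro hs
    refine ⟨h.vD s, s.length, ?_⟩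
    rw [hs]

lemma DF.locConst (h : DF N D B T Θ) (p : ℕ → Bool) (π : Pr) :
    ∃ m, ∀ p' : ℕ → Bool, pre p' m = pre p m → wp N D p' π = wp N D p π := by
  by_cases hv : Vd (bn N) π
  · obtain ⟨m, hm⟩ := h.dec π hv
    refine ⟨m, fun p' hp' => ?_⟩
    rcases hm (pre p m) (by rw [pre_length]) with h1 | h1
    · rw [wp_iff.2 ⟨hv, m, h1⟩, wp_iff.2 ⟨hv, m, by rw [hp']; exact h1⟩]
    · have h2 : wp N D p π = false := by
        rw [← Bool.not_eq_true, wp_iff]
        rintro ⟨-, m', h3⟩
        exact h.not_disj (m' := m) h3 h1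
      have h3 : wp N D p' π = false := by
        rw [← Bool.not_eq_true, wp_iff]
        rintro ⟨-, m', h3⟩
        refine h.not_disj (m' := m) h3 ?_
        rw [hp']
        exact h1
      rw [h2, h3]
  · refine ⟨0, fun p' _ => ?_⟩
    have h2 : ∀ q : ℕ → Bool, wp N D q π = false := by
      intro q
      rw [← Bool.not_eq_true, wp_iff]
      exact fun h3 => hv h3.1
    rw [h2, h2]

end

theorem pf_HMD {C : Type} : E_HMD C := by
  intro N D B T Θ h
  let Φ : Br T → Om Θ N := fun p => ⟨wp N D p.1, pf_WIN N D B T Θ h p.1 p.2⟩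
  have hinj : Function.Injective Φ := by
    intro p p' hpp
    have h1 : wp N D p.1 = wp N D p'.1 := congrArg Subtype.val hpp
    apply Subtype.ext
    funext m
    have h2 : wp N D p.1 (D (pre p.1 (m + 1))) = true := h.wpD.2 (by rw [pre_length])
    rw [h1] at h2
    have h3 := h.wpD.1 h2
    rw [pre_length] at h3
    exact ((List.cons.inj h3).1).symm
  have hsurj : Function.Surjective Φ := by
    rintro ⟨w, hw⟩
    obtain ⟨p, hp, hpw⟩ := pf_WEX N D B T Θ h w hw
    exact ⟨⟨p, hp⟩, Subtype.ext hpw⟩
  have hcont : Continuous Φ := by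
    refine Continuous.subtype_mk (continuous_pi fun π => ?_) _
    refine IsLocallyConstant.continuous ((IsLocallyConstant.iff_exists_open _).2 fun p => ?_)
    obtain ⟨m, hm⟩ := h.locConst p.1 π
    exact ⟨Subtype.val ⁻¹' {q | pre q m = pre p.1 m},
      (isOpen_pre m _).preimage continuous_subtype_val, rfl, fun p' hp' => hm p'.1 hp'⟩
  let E : Br T ≃ Om Θ N := Equiv.ofBijective Φ ⟨hinj, hsurj⟩
  have hE : ∀ w : Om Θ N, wp N D (E.symm w).1 = w.1 := by
    intro w
    exact congrArg Subtype.val (E.apply_symm_apply w)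
  have hinv : Continuous E.symm := by
    refine continuous_induced_rng.2 (continuous_pi fun m => ?_)
    refine IsLocallyConstant.continuous ((IsLocallyConstant.iff_exists_open _).2 fun w => ?_)
    refine ⟨{w' | w'.1 (D (pre (E.symm w).1 (m + 1))) = true}, ?_, ?_, ?_⟩
    · have hc : Continuous (fun w' : Om Θ N => w'.1 (D (pre (E.symm w).1 (m + 1)))) :=
        (continuous_apply (D (pre (E.symm w).1 (m + 1)))).comp continuous_subtype_val
      exact (isOpen_discrete {true}).preimage hc
    · change w.1 (D (pre (E.symm w).1 (m + 1))) = true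
      rw [← hE w]
      exact h.wpD.2 (by rw [pre_length])
    · intro w' hw'
      have h1 : w'.1 (D (pre (E.symm w).1 (m + 1))) = true := hw'
      rw [← hE w'] at h1
      have h2 := h.wpD.1 h1
      rw [pre_length] at h2
      exact (List.cons.inj h2).1
  exact ⟨{ toEquiv := E, continuous_toFun := hcont, continuous_invFun := hinv }⟩

end Pool.Agent.MO
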