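import Pool.Agent.H51.MO.TargetsB

/-!
# Equations of the values, depths and path numbers of a circuit (helper16, mo_modules B_MEQN)
-/

set_option autoImplicit false

namespace Pool.Agent.H16.MO

open Pool.Agent.H51.MO

theorem dep_le {n : ℕ} (g : (i : ℕ) → Gate n i) : ∀ i : ℕ, dep g i ≤ i := by
  intro i
  induction i using Nat.strong_induction_on with
  | _ i ih =>
    rw [dep]
    cases h : g i with
    | cst b => exact Nat.zero_le i
    | inp C => exact Nat.zero_le i
    | and j l =>
      have h1 := ih j.1 j.2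
      have h2 := ih l.1 l.2
      have h3 := j.2
      have h4 := l.2
      show max (dep g j.1) (dep g l.1) + 1 ≤ i
      have : max (dep g j.1) (dep g l.1) < i := max_lt (by omega) (by omega)
      omega
    | or j l =>
      have h1 := ih j.1 j.2
      have h2 := ih l.1 l.2
      have h3 := j.2
      have h4 := l.2
      show max (dep g j.1) (dep g l.1) + 1 ≤ i
      have : max (dep g j.1) (dep g l.1) < i := max_lt (by omega) (by omega)
      omega

theorem two_pow_add (a b : ℕ) : 2 ^ a + 2 ^ b ≤ 2 ^ (max a b + 1) := by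
  have h1 : 2 ^ a ≤ 2 ^ max a b := Nat.pow_le_pow_right (by norm_num) (le_max_left a b)
  have h2 : 2 ^ b ≤ 2 ^ max a b := Nat.pow_le_pow_right (by norm_num) (le_max_right a b)
  rw [pow_succ]
  omega

theorem pth_le {n : ℕ} (g : (i : ℕ) → Gate n i) : ∀ i : ℕ, pth g i ≤ 2 ^ dep g i := by
  intro i
  induction i using Nat.strong_induction_on with
  | _ i ih =>
    rw [dep, pth]
    cases h : g i with
    | cst b => exact le_rfl
    | inp C => exact le_rfl
    | and j l =>
      have h1 := ih j.1 j.2
      have h2 := ih l.1 l.2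
      show pth g j.1 + pth g l.1 ≤ 2 ^ (max (dep g j.1) (dep g l.1) + 1)
      have := two_pow_add (dep g j.1) (dep g l.1)
      omega
    | or j l =>
      have h1 := ih j.1 j.2
      have h2 := ih l.1 l.2
      show pth g j.1 + pth g l.1 ≤ 2 ^ (max (dep g j.1) (dep g l.1) + 1)
      have := two_pow_add (dep g j.1) (dep g l.1)
      omega

theorem pf_MEQN : S_MEQN := by
  intro n g i
  refine ⟨?_, ?_, ?_, ?_, dep_le g i, pth_le g i⟩
  · intro b h
    refine ⟨fun F => ?_, ?_, ?_⟩
    · rw [val, h]
    · rw [dep, h]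
    · rw [pth, h]
  · intro C h
    refine ⟨fun F => ?_, ?_, ?_⟩
    · rw [val, h]
    · rw [dep, h]
    · rw [pth, h]
  · intro j l h
    refine ⟨fun F => ?_, ?_, ?_⟩
    · rw [val, h]
    · rw [dep, h]
    · rw [pth, h]
  · intro j l h
    refine ⟨fun F => ?_, ?_, ?_⟩
    · rw [val, h]
    · rw [dep, h]
    · rw [pth, h]

end Pool.Agent.H16.MO
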