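import Pool.Agent.H16.MO.DF

/-! WIN: branches give points at infinity. -/

set_option autoImplicit false

open Set Pool.Agent.TK Pool.Agent.H71.VK

namespace Pool.Agent.MO

section
variable {C : Type} {N : St (C × W)} {D B : List Bool → Pr} {T : Set (List Bool)}
  {Θ : ℕ → Set (Tr C)}

lemma pre_length (p : ℕ → Bool) : ∀ m, (pre p m).length = m
  | 0 => rfl
  | m + 1 => by
    change (p m :: pre p m).length = m + 1
    rw [List.length_cons, pre_length p m]

lemma DF.dSub (h : DF N D B T Θ) (u s : List Bool) :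
    st (bn N) (D (u ++ s)) ⊆ st (bn N) (D s) := by
  induction u with
  | nil => exact subset_rfl
  | cons i u ih =>
    obtain ⟨σ, hσ⟩ := h.suf i (u ++ s)
    have h1 : Vd (bn N) (σ ++ D (u ++ s)) := hσ ▸ h.vD (i :: (u ++ s))
    have h2 := st_app h1
    rw [← hσ] at h2
    exact h2.trans ih

lemma DF.bSub (h : DF N D B T Θ) (s : List Bool) : st (bn N) (B s) ⊆ st (bn N) (D s) := by
  obtain ⟨σ, hσ⟩ := h.suB s
  have h1 : Vd (bn N) (σ ++ D s) := hσ ▸ h.vB s
  have h2 := st_app h1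
  rwa [← hσ] at h2

lemma DF.neD (h : DF N D B T Θ) (s : List Bool) : (st (bn N) (D s)).Nonempty :=
  (h.ne s).mono (h.bSub s)

lemma pre_app (p : ℕ → Bool) (m : ℕ) : ∀ k, ∃ u, pre p (m + k) = u ++ pre p m
  | 0 => ⟨[], rfl⟩
  | k + 1 => by
    obtain ⟨u, hu⟩ := pre_app p m k
    refine ⟨p (m + k) :: u, ?_⟩
    change p (m + k) :: pre p (m + k) = _
    rw [hu]
    rfl

lemma DF.preSub (h : DF N D B T Θ) (p : ℕ → Bool) {m m' : ℕ} (hm : m ≤ m') :
    st (bn N) (D (pre p m')) ⊆ st (bn N) (D (pre p m)) := by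
  obtain ⟨k, rfl⟩ := Nat.exists_eq_add_of_le hm
  obtain ⟨u, hu⟩ := pre_app p m k
  rw [hu]
  exact h.dSub u _

lemma wp_iff {p : ℕ → Bool} {π : Pr} : wp N D p π = true ↔
    Vd (bn N) π ∧ ∃ m, st (bn N) (D (pre p m)) ⊆ st (bn N) π := by
  classical
  unfold wp
  exact decide_eq_true_iff

/-- a piece of a branch point is met by all sets of the branch -/
lemma DF.not_disj (h : DF N D B T Θ) {p : ℕ → Bool} {m m' : ℕ} {A : Set ℕ}
    (h1 : st (bn N) (D (pre p m)) ⊆ A) : ¬ Disjoint (st (bn N) (D (pre p m'))) A := by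
  intro h2
  obtain ⟨x, hx⟩ := h.neD (pre p (max m m'))
  exact Set.disjoint_left.1 h2 (h.preSub p (le_max_right m m') hx)
    (h1 (h.preSub p (le_max_left m m') hx))

/-- the sets of a branch leave every finite list -/
lemma DF.leave (h : DF N D B T Θ) (p : ℕ → Bool) (S : List ℕ) :
    ∃ m0, ∀ m, m0 ≤ m → ∀ a ∈ S, a ∉ st (bn N) (D (pre p m)) := by
  induction S with
  | nil => exact ⟨0, fun m _ a ha => absurd ha (by simp)⟩
  | cons a S ih =>
    obtain ⟨m1, h1⟩ := ih
    obtain ⟨m2, h2⟩ := h.vtx a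
    refine ⟨max m1 m2, fun m hm a' ha' => ?_⟩
    rcases List.mem_cons.1 ha' with rfl | ha'
    · exact h2 _ (by rw [pre_length]; omega)
    · exact h1 m (by omega) a' ha'

/-- the first part of a step -/
lemma DF.step (h : DF N D B T Θ) {p : ℕ → Bool} {π : Pr} {S : List ℕ} {F : Tab} {x : ℕ}
    (hw : wp N D p π = true) (hv : Vd (bn N) ((S, F, x, true) :: π)) :
    (wp N D p ((S, F, x, true) :: π) = true ↔ wp N D p ((S, F, x, false) :: π) = false) := by
  obtain ⟨h1, m1, h2⟩ := wp_iff.1 hw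
  have hv' : Vd (bn N) ((S, F, x, false) :: π) := hv
  constructor
  · intro h3
    obtain ⟨-, m3, h4⟩ := wp_iff.1 h3
    by_contra h5
    rw [Bool.not_eq_false] at h5
    obtain ⟨-, m5, h6⟩ := wp_iff.1 h5
    exact h.not_disj (m' := m3) h6 ((st_disj π S F x).mono_left h4)
  · intro h3
    have h4 : ¬ ∃ m, st (bn N) (D (pre p m)) ⊆ st (bn N) ((S, F, x, false) :: π) := by
      intro h5
      have h6 := wp_iff.2 ⟨hv', h5⟩
      rw [h3] at h6
      exact absurd h6 (by simp)
    rw [wp_iff]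
    refine ⟨hv, ?_⟩
    obtain ⟨m2, hm2⟩ := h.dec _ hv
    obtain ⟨m3, hm3⟩ := h.leave p (x :: S)
    have hm : m2 ≤ (pre p (max m1 (max m2 m3))).length := by
      rw [pre_length]
      omega
    rcases hm2 _ hm with h5 | h5
    · exact ⟨_, h5⟩
    · exfalso
      apply h4
      refine ⟨max m1 (max m2 m3), fun y hy => ?_⟩
      have h6 : y ∈ st (bn N) π := h2 (h.preSub p (le_max_left _ _) hy)
      rcases st_cover (F := F) (x := x) h1 h6 (fun hyS => hm3 _
        ((le_max_right m2 m3).trans (le_max_right _ _)) y hyS hy) with h7 | h7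
      · exact absurd h7 (Set.disjoint_left.1 h5 hy)
      · exact h7

lemma encode_unb (p : ℕ → Bool) (i m : ℕ) : ∃ m', m ≤ m' ∧ i ≤ Encodable.encode (pre p m') := by
  by_contra hcon
  push Not at hcon
  have h1 : ∀ k, Encodable.encode (pre p (m + k)) < i := fun k => hcon _ (Nat.le_add_right _ _)
  have h2 : Function.Injective (fun k => Encodable.encode (pre p (m + k))) := by
    intro k k' hk
    have h3 := Encodable.encode_injective hk
    have h4 : (pre p (m + k)).length = (pre p (m + k')).length := by rw [h3]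
    rw [pre_length, pre_length] at h4
    omega
  have h3 : (Set.range (fun k => Encodable.encode (pre p (m + k)))).Finite :=
    (Set.finite_Iio i).subset (by rintro _ ⟨k, rfl⟩; exact h1 k)
  exact Set.infinite_range_of_injective h2 h3

end

theorem pf_WIN {C : Type} : E_WIN C := by
  intro N D B T Θ h p hp
  refine ⟨?_, ?_, ?_, ?_, ?_⟩
  · rw [wp_iff]
    exact ⟨vd_CT (h.vD []), 0, fun _ _ => mem_univ _⟩
  · exact fun π hπ => (wp_iff.1 hπ).1
  · intro s π hπ
    obtain ⟨h1, m, h2⟩ := wp_iff.1 hπ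
    rw [wp_iff]
    exact ⟨(vd_cons.1 h1).1, m, fun y hy => (st_sub h1 y (h2 hy)).1⟩
  · intro π S F x hw hv
    exact h.step hw hv
  · intro l hl i
    have h1 : ∃ m, ∀ π ∈ l, st (bn N) (D (pre p m)) ⊆ st (bn N) π := by
      induction l with
      | nil => exact ⟨0, fun π hπ => absurd hπ (by simp)⟩
      | cons π l ih =>
        obtain ⟨m1, h1⟩ := ih fun ρ hρ => hl ρ (List.mem_cons_of_mem _ hρ)
        obtain ⟨-, m2, h2⟩ := wp_iff.1 (hl π List.mem_cons_self)
        refine ⟨max m1 m2, fun ρ hρ => ?_⟩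
        rcases List.mem_cons.1 hρ with rfl | hρ
        · exact (h.preSub p (le_max_right _ _)).trans h2
        · exact (h.preSub p (le_max_left _ _)).trans (h1 ρ hρ)
    obtain ⟨m, hm⟩ := h1
    obtain ⟨m', h2, h3⟩ := encode_unb p i m
    refine ⟨B (pre p m'), h.vB _, h.ne _, fun π hπ => ?_, fun h4 => ?_⟩
    · exact ((h.bSub _).trans (h.preSub p h2)).trans (hm π hπ)
    · exact h.new (pre p m') (hp m') (h4.mono (h.mono _ _ h3))

end Pool.Agent.MO
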